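import Pool.Agent.Helper6.BA.ResGlue

/-!
# Elements of the final algebra represented at a node: Boolean operations
-/

set_option autoImplicit false
set_option linter.unusedSectionVars false

namespace Pool.Agent.Helper94.BA

open Pool.Agent.Helper33.HM

section AtOps

universe v

variable {P₀ I : Type v} [Preorder P₀] [LinearOrder I] {h : Ordinal.{0} → ℕ → ℕ → RO P₀}
variable {σ τ : Nd I h}

theorem h79_down {x y : QQ I h} (hyx : y ≤ x) (hx : σ ≤ x.nd) (hy : σ ≤ y.nd) :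
    resTo hy.2 y.p ≤ resTo hx.2 x.p :=
  resTo_mono hy.2 (q := incTo hyx.1.2 hyx.1.1 x.p) (show y.p ≤ incTo hyx.1.2 hyx.1.1 x.p from hyx.2)

theorem h79_up {x : QQ I h} (hx : σ ≤ x.nd) {q : Cnd σ.F σ.len} (hq : q ≤ resTo hx.2 x.p) :
    ∃ y : QQ I h, y ≤ x ∧ ∃ hy : σ ≤ y.nd, resTo hy.2 y.p = q := by
  obtain ⟨r, hr, hrq⟩ := exists_glue hx.2 hx.1 x.p q hq
  exact ⟨⟨x.nd, r⟩, ⟨le_rfl, hr⟩, hx, hrq⟩

theorem At.compl {V : RO (QQ I h)} {U : RO (Cnd σ.F σ.len)} (hV : At σ V U) : At σ Vᶜ Uᶜ := by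
  intro x hx
  constructor
  · intro hxV q hq hqU
    obtain ⟨y, hyx, hy, hyq⟩ := h79_up hx hq
    refine hxV y hyx ((hV y hy).2 ?_)
    rw [hyq]
    exact hqU
  · intro hxU y hyx hyV
    have hy : σ ≤ y.nd := hx.trans hyx.1
    exact hxU _ (h79_down hyx hx hy) ((hV y hy).1 hyV)

theorem At.iSup {ι : Sort*} {V : ι → RO (QQ I h)} {U : ι → RO (Cnd σ.F σ.len)}
    (hV : ∀ j, At σ (V j) (U j)) : At σ (⨆ j, V j) (⨆ j, U j) := by
  intro x hx
  constructor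
  · intro hxV
    refine RO.mem_iSup.2 fun q hq => ?_
    obtain ⟨y, hyx, hy, hyq⟩ := h79_up hx hq
    obtain ⟨z, hzy, j, hz⟩ := RO.mem_iSup.1 hxV y hyx
    have hz' : σ ≤ z.nd := hy.trans hzy.1
    refine ⟨resTo hz'.2 z.p, ?_, j, (hV j z hz').1 hz⟩
    rw [← hyq]
    exact h79_down hzy hy hz'
  · intro hxU
    refine RO.mem_iSup.2 fun y hyx => ?_
    have hy : σ ≤ y.nd := hx.trans hyx.1
    obtain ⟨r, hr, j, hrj⟩ := RO.mem_iSup.1 hxU _ (h79_down hyx hx hy)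
    obtain ⟨z, hzy, hz, hzr⟩ := h79_up hy hr
    refine ⟨z, hzy, j, (hV j z hz).2 ?_⟩
    rw [hzr]
    exact hrj

theorem At.iInf {ι : Sort*} {V : ι → RO (QQ I h)} {U : ι → RO (Cnd σ.F σ.len)}
    (hV : ∀ j, At σ (V j) (U j)) : At σ (⨅ j, V j) (⨅ j, U j) := by
  intro x hx
  constructor
  · intro hxV
    exact RO.mem_iInf.2 fun j => (hV j x hx).1 (RO.mem_iInf.1 hxV j)
  · intro hxU
    exact RO.mem_iInf.2 fun j => (hV j x hx).2 (RO.mem_iInf.1 hxU j)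

theorem At.inf {V V' : RO (QQ I h)} {U U' : RO (Cnd σ.F σ.len)} (hV : At σ V U)
    (hV' : At σ V' U') : At σ (V ⊓ V') (U ⊓ U') := by
  intro x hx
  exact ⟨fun hxV => ⟨(hV x hx).1 hxV.1, (hV' x hx).1 hxV.2⟩,
    fun hxU => ⟨(hV x hx).2 hxU.1, (hV' x hx).2 hxU.2⟩⟩

theorem At.sup {V V' : RO (QQ I h)} {U U' : RO (Cnd σ.F σ.len)} (hV : At σ V U)
    (hV' : At σ V' U') : At σ (V ⊔ V') (U ⊔ U') := by
  have h1 := (hV.compl.inf hV'.compl).compl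
  rw [compl_inf, compl_compl, compl_compl, compl_inf, compl_compl, compl_compl] at h1
  exact h1

theorem At.himp {V V' : RO (QQ I h)} {U U' : RO (Cnd σ.F σ.len)} (hV : At σ V U)
    (hV' : At σ V' U') : At σ (V ⇨ V') (U ⇨ U') := by
  have h1 := hV'.sup hV.compl
  rw [← himp_eq, ← himp_eq] at h1
  exact h1

theorem At.top : At σ (⊤ : RO (QQ I h)) ⊤ := fun _ _ => ⟨fun _ => trivial, fun _ => trivial⟩

theorem At.bot : At σ (⊥ : RO (QQ I h)) ⊥ := fun _ _ => ⟨fun h => h.elim, fun h => h.elim⟩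

theorem h79_at_iffV {a b : RO (QQ I h)} {a' b' : RO (Cnd σ.F σ.len)} (ha : At σ a a')
    (hb : At σ b b') : At σ (iffV a b) (iffV a' b') :=
  (ha.himp hb).inf (hb.himp ha)

theorem at_eqV {x y : ℕ → RO (QQ I h)} {x' y' : ℕ → RO (Cnd σ.F σ.len)}
    (hx : ∀ n, At σ (x n) (x' n)) (hy : ∀ n, At σ (y n) (y' n)) :
    At σ (eqV x y) (eqV x' y') :=
  At.iInf fun n => h79_at_iffV (hx n) (hy n)

theorem at_finV {x : ℕ → RO (QQ I h)} {x' : ℕ → RO (Cnd σ.F σ.len)}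
    (hx : ∀ n, At σ (x n) (x' n)) : At σ (finV x) (finV x') :=
  At.iSup fun _ => At.iInf fun n => At.iInf fun _ => (hx n).compl

theorem at_leStar {f g : ℕ → ℕ → RO (QQ I h)} {f' g' : ℕ → ℕ → RO (Cnd σ.F σ.len)}
    (hf : ∀ n k, At σ (f n k) (f' n k)) (hg : ∀ n k, At σ (g n k) (g' n k)) :
    At σ (leStar f g) (leStar f' g') :=
  At.iSup fun _ => At.iInf fun n => At.iInf fun _ => At.iInf fun k => (hg n k).himp (hf n k)

theorem h79_at_brV {x : ℕ → RO (QQ I h)} {x' : ℕ → RO (Cnd σ.F σ.len)}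
    {w : ℕ → ℕ → RO (QQ I h)} {w' : ℕ → ℕ → RO (Cnd σ.F σ.len)}
    (hx : ∀ n, At σ (x n) (x' n)) (hw : ∀ n k, At σ (w n k) (w' n k)) (t : List (Bool × ℕ)) :
    At σ (brV x w t) (brV x' w' t) := by
  refine At.iInf fun i => At.iInf fun hi => At.inf ?_ (hw i _)
  by_cases hb : (t[i]).1 = true
  · rw [if_pos hb, if_pos hb]
    exact hx i
  · rw [if_neg hb, if_neg hb]
    exact (hx i).compl

theorem at_brT {T : List (Bool × ℕ) → RO (QQ I h)} {T' : List (Bool × ℕ) → RO (Cnd σ.F σ.len)}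
    {x : ℕ → RO (QQ I h)} {x' : ℕ → RO (Cnd σ.F σ.len)} {w : ℕ → ℕ → RO (QQ I h)}
    {w' : ℕ → ℕ → RO (Cnd σ.F σ.len)} (hT : ∀ t, At σ (T t) (T' t))
    (hx : ∀ n, At σ (x n) (x' n)) (hw : ∀ n k, At σ (w n k) (w' n k)) :
    At σ (brT T x w) (brT T' x' w') :=
  At.inf (At.iInf fun i => At.iSup fun k => hw i k)
    (At.iInf fun t => (h79_at_brV hx hw t).himp (hT t))

end AtOps

end Pool.Agent.Helper94.BA
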