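import Pool.Agent.Helper6.BA.ResGlue

/-!
# Limit steps of the iterations, and iterations of length zero
-/

set_option autoImplicit false
set_option linter.unusedSectionVars false

namespace Pool.Agent.Helper94.BA

open Pool.Agent.Helper33.HM

universe u

section Iter

variable {P₀ I : Type u} [Preorder P₀] [LinearOrder I]
variable {F G : I → Set (Name P₀ I)} {i ℓ : I}

theorem h79_exists_lt (hne : ∃ i, i < ℓ) (hlim : ∀ i < ℓ, ∃ j < ℓ, i < j) (p : Cnd F ℓ) :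
    ∃ i < ℓ, p.1.lt i := by
  obtain ⟨p, hp, hpl⟩ := p
  cases p with
  | nil a =>
    obtain ⟨i, hi⟩ := hne
    exact ⟨i, hi, trivial⟩
  | cons p j s m f v =>
    obtain ⟨i, hi, hji⟩ := hlim j hpl
    exact ⟨i, hi, hji⟩

theorem dense_limit (hne : ∃ i, i < ℓ) (hlim : ∀ i < ℓ, ∃ j < ℓ, i < j) {b : RO (Cnd F ℓ)}
    (hb : b ≠ ⊥) : ∃ i < ℓ, ∃ a : RO (Cnd (restr F i) i), a ≠ ⊥ ∧
      (embR (agr_restr F i) a : RO (Cnd F ℓ)) ≤ b := by
  obtain ⟨p, hp⟩ := RO.ne_bot_iff.1 hb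
  obtain ⟨i, hi, hpi⟩ := h79_exists_lt hne hlim p
  have hv : p.1.Valid (restr F i) :=
    p.2.1.congr hpi fun j hj => (agr_restr F i j hj).symm.subset
  refine ⟨i, hi, RO.gen {(⟨p.1, hv, hpi⟩ : Cnd (restr F i) i)}, ?_, ?_⟩
  · exact RO.ne_bot_iff.2 ⟨⟨p.1, hv, hpi⟩, fun q hq => ⟨q, le_rfl, _, rfl, hq⟩⟩
  · intro r hr
    have hr' := (mem_embR (agr_restr F i) hi.le).1 hr
    refine RO.mem_reg fun s hs => ?_
    obtain ⟨t, ht, a, ha, hta⟩ := hr' _ (resTo_mono (agr_restr F i) hs)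
    obtain ⟨w, hw, hwt⟩ := exists_glue (agr_restr F i) hi.le s t ht
    refine ⟨w, hw, RO.mem_lower ?_ hp⟩
    have h1 := le_incTo_resTo (agr_restr F i) hi.le w
    rw [hwt] at h1
    have h2 : incTo (agr_restr F i) hi.le t ≤ incTo (ℓ := ℓ) (agr_restr F i) hi.le a :=
      (incTo_mono (agr_restr F i) hi.le).2 hta
    have ha' : a = ⟨p.1, hv, hpi⟩ := ha
    rw [ha'] at h2
    exact h1.trans h2

/-- The condition with the base part `c` and no indices. -/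
def h79_bs (c : P₀) : Cnd F ℓ := ⟨.nil c, trivial, trivial⟩

theorem h79_bs_le {c c' : P₀} (h : c' ≤ c) : (h79_bs c' : Cnd F ℓ) ≤ h79_bs c := h

theorem h79_eq_bs (hmin : ∀ i, ¬ i < ℓ) (p : Cnd F ℓ) : h79_bs p.1.base = p := by
  obtain ⟨p, hp, hpl⟩ := p
  cases p with
  | nil a => rfl
  | cons p j s m f v => exact absurd hpl (hmin j)

/-- If `ℓ` is the least index then the iteration of length `ℓ` is the base poset. -/
theorem baseE_surj (hmin : ∀ i, ¬ i < ℓ) (b : RO (Cnd F ℓ)) : ∃ a : RO P₀, baseE a = b := by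
  refine ⟨⟨{c | h79_bs c ∈ b}, fun c hc c' hcc' => RO.mem_lower (h79_bs_le hcc') hc, ?_⟩, ?_⟩
  · intro c hc
    refine RO.mem_reg (U := b) fun q hq => ?_
    obtain ⟨r, hr, hrb⟩ := hc q.1.base (base_mono hq)
    refine ⟨h79_bs r, ?_, hrb⟩
    rw [← h79_eq_bs hmin q]
    exact h79_bs_le hr
  · apply RO.ext'
    intro p
    refine mem_baseE.trans ?_
    refine Iff.trans (b := h79_bs p.1.base ∈ b) Iff.rfl ?_
    rw [h79_eq_bs hmin p]

end Iter

end Pool.Agent.Helper94.BA
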